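import Mathlib
import Pool.Agent.Helper95_PSC.Stmts

/-!
# Squad PSC, module Mom: moments of the tiles
-/

set_option autoImplicit false

namespace Pool.Agent.PSC.H58

open Pool.Agent.Helper40_Pisot MeasureTheory Pool.Agent.PSC

variable {m : ℕ}

theorem wE_add (W : Fin (m + 1) → ℂ) (y y' : E m) : wE W (y + y') = wE W y + wE W y' := by
  unfold wE
  rw [← Finset.sum_add_distrib]
  refine Finset.sum_congr rfl fun i _ => ?_
  rw [Pi.add_apply]
  push_cast
  ring

theorem wE_cont (W : Fin (m + 1) → ℂ) : Continuous (wE W : E m → ℂ) := by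
  unfold wE
  fun_prop

theorem wE_pr {W : Fin (m + 1) → ℂ} {α : Fin (m + 1) → ℝ} (hα : ∑ i, α i = 1)
    (hW : ∑ i, W i * (α i : ℂ) = 0) (v : Lat m) : wE W (pr α v) = pair W v := by
  have h1 : ∑ i, (α i : ℂ) = 1 := by
    rw [← Complex.ofReal_sum, hα, Complex.ofReal_one]
  rw [Fin.sum_univ_castSucc] at h1 hW
  have h6 : pair W v = ∑ i : Fin m, W i.castSucc * (v i.castSucc : ℂ) +
      W (Fin.last m) * (v (Fin.last m) : ℂ) := Fin.sum_univ_castSucc _
  rw [h6]
  unfold wE pr
  have h2 : ∀ i : Fin m, (W i.castSucc - W (Fin.last m)) *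
      (((v i.castSucc : ℝ) - (∑ j, (v j : ℝ)) * α i.castSucc : ℝ) : ℂ) =
      W i.castSucc * (v i.castSucc : ℂ) - W (Fin.last m) * (v i.castSucc : ℂ) -
      (∑ j, (v j : ℂ)) * (W i.castSucc * (α i.castSucc : ℂ)) +
      (∑ j, (v j : ℂ)) * W (Fin.last m) * (α i.castSucc : ℂ) := by
    intro i
    push_cast
    ring
  rw [Finset.sum_congr rfl fun i _ => h2 i, Finset.sum_add_distrib, Finset.sum_sub_distrib,
    Finset.sum_sub_distrib, ← Finset.mul_sum, ← Finset.mul_sum, ← Finset.mul_sum]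
  have h3 : (∑ j, (v j : ℂ)) = ∑ j : Fin m, (v j.castSucc : ℂ) + (v (Fin.last m) : ℂ) :=
    Fin.sum_univ_castSucc _
  have h4 : ∑ i : Fin m, (α i.castSucc : ℂ) = 1 - (α (Fin.last m) : ℂ) := by
    linear_combination h1
  have h5 : ∑ i : Fin m, W i.castSucc * (α i.castSucc : ℂ) =
      - (W (Fin.last m) * (α (Fin.last m) : ℂ)) := by
    linear_combination hW
  rw [h4, h5, h3]
  ring

theorem left_kills {M : Matrix (Fin (m + 1)) (Fin (m + 1)) ℤ} {r : ℝ} {α l : Fin (m + 1) → ℝ}
    (hpf : PFData M r α l) {β : ℂ} (hβ : β ≠ (r : ℂ)) {W : Fin (m + 1) → ℂ}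
    (hW : LeftEig M β W) : ∑ i, W i * (α i : ℂ) = 0 := by
  have h1 : ∑ j, (∑ i, W i * (M i j : ℂ)) * (α j : ℂ) = β * ∑ j, W j * (α j : ℂ) := by
    rw [Finset.mul_sum]
    refine Finset.sum_congr rfl fun j _ => ?_
    rw [hW j]; ring
  have h2 : ∑ j, (∑ i, W i * (M i j : ℂ)) * (α j : ℂ) = (r : ℂ) * ∑ j, W j * (α j : ℂ) := by
    simp only [Finset.sum_mul]
    rw [Finset.sum_comm, Finset.mul_sum]
    refine Finset.sum_congr rfl fun i _ => ?_
    have h3 : ∑ j, (M i j : ℂ) * (α j : ℂ) = (r : ℂ) * (α i : ℂ) := by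
      have := congrArg (fun t : ℝ => (t : ℂ)) (hpf.α_eig i)
      push_cast at this
      exact this
    have h4 : ∑ j, W i * (M i j : ℂ) * (α j : ℂ) = W i * ∑ j, (M i j : ℂ) * (α j : ℂ) := by
      rw [Finset.mul_sum]
      exact Finset.sum_congr rfl fun j _ => by ring
    rw [h4, h3]; ring
  have h3 : (β - (r : ℂ)) * ∑ j, W j * (α j : ℂ) = 0 := by
    linear_combination h2 - h1
  exact (mul_eq_zero.1 h3).resolve_left (sub_ne_zero.2 hβ)

theorem coeff_eS (c : ℂ) (n : ℕ) : PowerSeries.coeff n (eS c) = c ^ n / (n.factorial : ℂ) := by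
  unfold eS
  rw [PowerSeries.coeff_rescale, PowerSeries.coeff_exp]
  simp [div_eq_mul_inv]

theorem binom_exp (x y : ℂ) (n : ℕ) : (x + y) ^ n / (n.factorial : ℂ) =
    ∑ p ∈ Finset.HasAntidiagonal.antidiagonal n, x ^ p.1 / (p.1.factorial : ℂ) *
      (y ^ p.2 / (p.2.factorial : ℂ)) := by
  rw [add_pow, Finset.Nat.sum_antidiagonal_eq_sum_range_succ_mk, Finset.sum_div]
  refine Finset.sum_congr rfl fun i hi => ?_
  rw [Finset.mem_range, Nat.lt_succ_iff] at hi
  have h1 : ((n.choose i : ℕ) : ℂ) * (i.factorial : ℂ) * ((n - i).factorial : ℂ) =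
      (n.factorial : ℂ) := by
    rw [← Nat.choose_mul_factorial_mul_factorial hi]
    push_cast
    ring
  have h2 : (n.factorial : ℂ) ≠ 0 := Nat.cast_ne_zero.2 (Nat.factorial_ne_zero n)
  have h3 : (i.factorial : ℂ) ≠ 0 := Nat.cast_ne_zero.2 (Nat.factorial_ne_zero i)
  have h4 : ((n - i).factorial : ℂ) ≠ 0 := Nat.cast_ne_zero.2 (Nat.factorial_ne_zero _)
  simp only
  rw [div_mul_div_comm, div_eq_div_iff h2 (mul_ne_zero h3 h4)]
  rw [← h1]; ring

section

variable {S : Set (E m)}

theorem int_pow (hS : IsCompact S) (W : Fin (m + 1) → ℂ) (c : ℂ) (n : ℕ) :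
    IntegrableOn (fun y => (wE W y + c) ^ n / (n.factorial : ℂ)) S volume := by
  refine ContinuousOn.integrableOn_compact hS (Continuous.continuousOn ?_)
  have := wE_cont W
  fun_prop

theorem int_shift (hS : IsCompact S) (W : Fin (m + 1) → ℂ) (w : E m) (n : ℕ) :
    Integrable (fun y => ((ind S (y - w) : ℝ) : ℂ) * ((wE W y) ^ n / (n.factorial : ℂ))) volume ∧
    ∫ y, ((ind S (y - w) : ℝ) : ℂ) * ((wE W y) ^ n / (n.factorial : ℂ)) =
      PowerSeries.coeff n (eS (wE W w) * Gam W S) := by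
  have h0 : (fun y => ((ind S (y - w) : ℝ) : ℂ) * ((wE W y) ^ n / (n.factorial : ℂ))) =
      fun y => (fun z => S.indicator (fun z => (wE W z + wE W w) ^ n / (n.factorial : ℂ)) z)
        (y - w) := by
    funext y
    simp only
    have h1 : wE W y = wE W (y - w) + wE W w := by
      rw [← wE_add, sub_add_cancel]
    unfold ind
    by_cases hy : y - w ∈ S
    · rw [Set.indicator_of_mem hy, Set.indicator_of_mem hy, h1]; simp
    · rw [Set.indicator_of_notMem hy, Set.indicator_of_notMem hy]; simp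
  have h2 : Integrable (S.indicator (fun z => (wE W z + wE W w) ^ n / (n.factorial : ℂ)))
      (volume : Measure (E m)) :=
    (integrable_indicator_iff hS.measurableSet).2 (int_pow hS W _ n)
  rw [h0]
  refine ⟨h2.comp_sub_right w, ?_⟩
  rw [integral_sub_right_eq_self (fun z => S.indicator
    (fun z => (wE W z + wE W w) ^ n / (n.factorial : ℂ)) z) w,
    integral_indicator hS.measurableSet, PowerSeries.coeff_mul]
  have h3 : ∀ z : E m, (wE W z + wE W w) ^ n / (n.factorial : ℂ) =
      ∑ p ∈ Finset.HasAntidiagonal.antidiagonal n, (wE W w) ^ p.1 / (p.1.factorial : ℂ) *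
        ((wE W z) ^ p.2 / (p.2.factorial : ℂ)) := by
    intro z
    rw [add_comm, binom_exp]
  simp only [h3]
  rw [integral_finsetSum]
  · refine Finset.sum_congr rfl fun p _ => ?_
    rw [integral_const_mul, coeff_eS]
    unfold Gam
    rw [PowerSeries.coeff_mk]
  · intro p _
    refine Integrable.const_mul ?_ _
    have h5 := int_pow hS W 0 p.2
    simp only [add_zero] at h5
    exact h5

end

theorem mom (hT : TileStmt) : MomStmt := by
  intro m σ M r α l a0 x0 hdat β hβ hβr W hW
  obtain ⟨hcomp, -, -, -, -⟩ := hT m σ M r α l a0 x0 hdat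
  have hkill := left_kills hdat.pf hβr hW
  refine ⟨fun a => ?_, fun x hx => ?_⟩
  · rw [← PowerSeries.coeff_zero_eq_constantCoeff_apply]
    unfold Gam
    rw [PowerSeries.coeff_mk]
    simp [Measure.real]
  · ext n
    rw [map_sum, map_zero]
    have h1 : ∀ a, PowerSeries.coeff n (evS W (x a) * Gam W (tile σ α x0 ((0 : Lat m), a))) =
        ∫ y, ((act α (x a) (ind (tile σ α x0 ((0 : Lat m), a))) y : ℝ) : ℂ) *
          ((wE W y) ^ n / (n.factorial : ℂ)) := by
      intro a
      unfold evS act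
      rw [Finsupp.sum, Finset.sum_mul, map_sum]
      have h2 : ∀ y : E m, (((x a).coeff.sum fun v c => (c : ℝ) *
          ind (tile σ α x0 ((0 : Lat m), a)) (y - pr α v) : ℝ) : ℂ) *
          ((wE W y) ^ n / (n.factorial : ℂ)) = ∑ v ∈ (x a).coeff.support,
          (((x a).coeff v : ℚ) : ℂ) * (((ind (tile σ α x0 ((0 : Lat m), a)) (y - pr α v) : ℝ) : ℂ) *
            ((wE W y) ^ n / (n.factorial : ℂ))) := by
        intro y
        rw [Finsupp.sum, Complex.ofReal_sum, Finset.sum_mul]
        refine Finset.sum_congr rfl fun v _ => ?_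
        push_cast
        ring
      simp only [h2]
      rw [integral_finsetSum]
      · refine Finset.sum_congr rfl fun v _ => ?_
        rw [integral_const_mul, (int_shift (hcomp _) W (pr α v) n).2,
          wE_pr hdat.pf.α_sum hkill, mul_assoc, PowerSeries.coeff_C_mul]
        simp
      · intro v _
        exact (int_shift (hcomp _) W (pr α v) n).1.const_mul _
    rw [Finset.sum_congr rfl fun a _ => h1 a, ← integral_finsetSum]
    · rw [integral_eq_zero_of_ae]
      filter_upwards [hx] with y hy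
      rw [← Finset.sum_mul, ← Complex.ofReal_sum, hy]
      simp
    · intro a _
      unfold act
      have h2 : (fun y : E m => (((x a).coeff.sum fun v c => (c : ℝ) *
          ind (tile σ α x0 ((0 : Lat m), a)) (y - pr α v) : ℝ) : ℂ) *
          ((wE W y) ^ n / (n.factorial : ℂ))) = fun y => ∑ v ∈ (x a).coeff.support,
          (((x a).coeff v : ℚ) : ℂ) * (((ind (tile σ α x0 ((0 : Lat m), a)) (y - pr α v) : ℝ) : ℂ) *
            ((wE W y) ^ n / (n.factorial : ℂ))) := by
        funext y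
        rw [Finsupp.sum, Complex.ofReal_sum, Finset.sum_mul]
        refine Finset.sum_congr rfl fun v _ => ?_
        push_cast
        ring
      rw [h2]
      exact integrable_finsetSum _ fun v _ =>
        (int_shift (hcomp _) W (pr α v) n).1.const_mul _

end Pool.Agent.PSC.H58
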